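import Pool.Agent.Helper31.BQ.Stmts2

/-!
# Row BF: the functionals `bt k` tend to zero on the operators of finite rank
-/

set_option autoImplicit false

namespace Pool.Agent.Helper32.BQ

open Filter Topology Pool.Agent.Helper31.BQ

/-- Bessel's inequality for an orthogonal family -/
theorem bessel {ι κ : Type} [Fintype ι] [Fintype κ] [DecidableEq κ] (τ : κ → ι → ℝ) (N : ℝ)
    (hN : 0 < N) (h : ∀ i i', ∑ g, τ i g * τ i' g = if i = i' then N else 0) (a : ι → ℝ) :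
    N * ∑ j, (N⁻¹ * ∑ g, τ j g * a g) ^ 2 ≤ ∑ g, a g ^ 2 := by
  set c : κ → ℝ := fun j => N⁻¹ * ∑ g, τ j g * a g with hc
  have hc' : ∀ j, ∑ g, τ j g * a g = N * c j := by
    intro j
    rw [hc]
    field_simp
  have e1 : ∀ g, (a g - ∑ j, c j * τ j g) ^ 2 = a g ^ 2 - 2 * (∑ j, c j * (τ j g * a g)) +
      ∑ j, ∑ j', c j * c j' * (τ j g * τ j' g) := by
    intro g
    have h1 : (∑ j, c j * τ j g) * (∑ j, c j * τ j g) =
        ∑ j, ∑ j', c j * c j' * (τ j g * τ j' g) := by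
      rw [Finset.sum_mul_sum]
      exact Finset.sum_congr rfl fun j _ => Finset.sum_congr rfl fun j' _ => by ring
    have h2 : a g * (∑ j, c j * τ j g) = ∑ j, c j * (τ j g * a g) := by
      rw [Finset.mul_sum]
      exact Finset.sum_congr rfl fun j _ => by ring
    rw [← h1, ← h2]
    ring
  have e2 : ∑ g, ∑ j, c j * (τ j g * a g) = N * ∑ j, c j ^ 2 := by
    rw [Finset.sum_comm, Finset.mul_sum]
    refine Finset.sum_congr rfl fun j _ => ?_
    rw [← Finset.mul_sum, hc' j]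
    ring
  have e3 : ∑ g, ∑ j, ∑ j', c j * c j' * (τ j g * τ j' g) = N * ∑ j, c j ^ 2 := by
    rw [Finset.sum_comm, Finset.mul_sum]
    refine Finset.sum_congr rfl fun j _ => ?_
    rw [Finset.sum_comm]
    have h3 : ∀ j', ∑ g, c j * c j' * (τ j g * τ j' g) =
        if j = j' then N * c j ^ 2 else 0 := by
      intro j'
      rw [← Finset.mul_sum, h j j']
      split_ifs with hh
      · subst hh
        ring
      · ring
    rw [Finset.sum_congr rfl fun j' _ => h3 j']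
    simp
  have e4 : ∑ g, (a g - ∑ j, c j * τ j g) ^ 2 = ∑ g, a g ^ 2 - N * ∑ j, c j ^ 2 := by
    rw [Finset.sum_congr rfl fun g _ => e1 g, Finset.sum_add_distrib, Finset.sum_sub_distrib,
      ← Finset.mul_sum, e2, e3]
    ring
  have e5 : 0 ≤ ∑ g, (a g - ∑ j, c j * τ j g) ^ 2 := Finset.sum_nonneg fun g _ => sq_nonneg _
  have : N * ∑ j, (N⁻¹ * ∑ g, τ j g * a g) ^ 2 = N * ∑ j, c j ^ 2 := rfl
  linarith

theorem cd_le {H : Type} [NormedAddCommGroup H] (x : WW H) (k : ℕ) (g : GG k) :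
    ‖(x : ∀ k, GG k → H) k g‖ ≤ ‖x‖ :=
  (norm_le_pi_norm ((x : ∀ k, GG k → H) k) g).trans (lp.norm_apply_le_norm two_ne_zero x k)

/-- an element with two blocks -/
theorem two_blocks {H : Type} [NormedAddCommGroup H] (x : WW H) (k : ℕ) (A B : ℝ)
    (h1 : ‖(x : ∀ k, GG k → H) k‖ ≤ A) (h2 : ‖(x : ∀ k, GG k → H) (k + 1)‖ ≤ B)
    (h3 : ∀ l, l ≠ k → l ≠ k + 1 → (x : ∀ k, GG k → H) l = 0) : ‖x‖ ≤ A + B := by
  have e : x = lp.single 2 k ((x : ∀ k, GG k → H) k) +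
      lp.single 2 (k + 1) ((x : ∀ k, GG k → H) (k + 1)) := by
    ext l : 2
    rw [lp.coeFn_add, Pi.add_apply, lp.single_apply, lp.single_apply]
    by_cases hk : l = k
    · subst hk
      simp
    · by_cases hk1 : l = k + 1
      · subst hk1
        simp
      · rw [h3 l hk hk1, Pi.single_eq_of_ne hk, Pi.single_eq_of_ne hk1, add_zero]
  rw [e]
  refine (norm_add_le _ _).trans ?_
  rw [lp.norm_single (by norm_num), lp.norm_single (by norm_num)]
  exact add_le_add h1 h2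

theorem sqrt2_lim (K : ℝ) : Tendsto (fun k : ℕ => K * (2 * (k : ℝ) + 5) *
    (Real.sqrt 2)⁻¹ ^ (k + 1)) atTop (𝓝 0) := by
  have hr0 : 0 ≤ (Real.sqrt 2)⁻¹ := by positivity
  have hr1 : (Real.sqrt 2)⁻¹ < 1 := by
    apply inv_lt_one_of_one_lt₀
    rw [Real.lt_sqrt (by norm_num)]
    norm_num
  have h1 := tendsto_self_mul_const_pow_of_lt_one hr0 hr1
  have h2 := tendsto_pow_atTop_nhds_zero_of_lt_one hr0 hr1
  have h3 := ((h1.const_mul 2).add (h2.const_mul 5)).const_mul (K * (Real.sqrt 2)⁻¹)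
  simp only [mul_zero, add_zero] at h3
  refine h3.congr fun k => ?_
  rw [pow_succ]
  ring

theorem st_BF : ST_BF := by
  intro H _ _ _ J e w S T hS σ τ δ hCO ξ hξ R hR
  obtain ⟨hw, hJ, hJe, he, -⟩ := hS
  obtain ⟨hσ1, hτ1, -, hτo, -⟩ := hCO
  have hfin : FiniteDimensional ℝ (LinearMap.range (R : EE J σ τ →ₗ[ℝ] EE J σ τ)) := hR
  -- the elements are bounded
  have hξn : ∀ k j, ‖ξ k j‖ ≤ 2 * (k : ℝ) + 5 := by
    intro k j
    obtain ⟨a1, a2, a3⟩ := hξ k j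
    have b1 : ‖((ξ k j : WW H) : ∀ k, GG k → H) k‖ ≤ (k : ℝ) + 2 := by
      rw [pi_norm_le_iff_of_nonneg (by positivity)]
      intro g
      have h1 : ((ξ k j : WW H) : ∀ k, GG k → H) k g = τ k j g • e k := a1 g
      rw [h1, norm_smul, Real.norm_eq_abs, hτ1 k j g, one_mul]
      exact he k
    have b2 : ‖((ξ k j : WW H) : ∀ k, GG k → H) (k + 1)‖ ≤ (k : ℝ) + 3 := by
      rw [pi_norm_le_iff_of_nonneg (by positivity)]
      intro g
      have h1 : ((ξ k j : WW H) : ∀ k, GG k → H) (k + 1) g = σ (k + 1) j g • e (k + 1) := a2 g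
      rw [h1, norm_smul, Real.norm_eq_abs, hσ1 (k + 1) j g, one_mul]
      have := he (k + 1)
      push_cast at this
      linarith
    have b3 : ∀ l, l ≠ k → l ≠ k + 1 → ((ξ k j : WW H) : ∀ k, GG k → H) l = 0 := by
      intro l h1 h2
      ext g
      exact a3 l h1 h2 g
    have := two_blocks (ξ k j : WW H) k _ _ b1 b2 b3
    have h4 : ‖ξ k j‖ = ‖(ξ k j : WW H)‖ := rfl
    rw [h4]
    linarith
  -- decomposition of `R`
  set V := LinearMap.range (R : EE J σ τ →ₗ[ℝ] EE J σ τ) with hV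
  let b := Module.finBasis ℝ V
  let RV : EE J σ τ →L[ℝ] V := R.codRestrict V (fun x => LinearMap.mem_range_self _ x)
  let f : Fin (Module.finrank ℝ V) → EE J σ τ →L[ℝ] ℝ := fun i =>
    (LinearMap.toContinuousLinearMap (b.coord i)).comp RV
  have hdec : ∀ x, R x = ∑ i, f i x • (b i : EE J σ τ) := by
    intro x
    have h1 : RV x = ∑ i, b.repr (RV x) i • b i := (b.sum_repr (RV x)).symm
    have h2 := congrArg (fun v : V => (v : EE J σ τ)) h1
    simp only [Submodule.coe_sum, Submodule.coe_smul] at h2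
    exact h2
  have hcd : ∀ x k g, cd (R x : WW H) k g = ∑ i, f i x • cd ((b i : EE J σ τ) : WW H) k g := by
    intro x k g
    rw [hdec x]
    unfold cd
    simp only [Submodule.coe_sum, Submodule.coe_smul, lp.coeFn_sum, Finset.sum_apply,
      lp.coeFn_smul, Pi.smul_apply]
  let c : Fin (Module.finrank ℝ V) → ∀ k, Fin (2 ^ (k + 1)) → ℝ := fun i k j =>
    ((2 : ℝ) ^ (k + 2))⁻¹ * ∑ g, τ k j g * inner ℝ w (J k (cd ((b i : EE J σ τ) : WW H) k g))
  have hbt : ∀ k, bt w J σ τ ξ k R =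
      ∑ i, ((2 : ℝ) ^ (k + 1))⁻¹ * ∑ j, f i (ξ k j) * c i k j := by
    intro k
    have hswap : ∑ i, ((2 : ℝ) ^ (k + 1))⁻¹ * ∑ j, f i (ξ k j) * c i k j =
        ((2 : ℝ) ^ (k + 1))⁻¹ * ∑ j, ∑ i, f i (ξ k j) * c i k j := by
      rw [← Finset.mul_sum, Finset.sum_comm]
    rw [hswap]
    unfold bt
    refine congrArg _ (Finset.sum_congr rfl fun j _ => ?_)
    have h1 : ∀ g, τ k j g * inner ℝ w (J k (cd (R (ξ k j) : WW H) k g)) =
        ∑ i, f i (ξ k j) * (τ k j g * inner ℝ w (J k (cd ((b i : EE J σ τ) : WW H) k g))) := by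
      intro g
      rw [hcd, map_sum (J k), inner_sum, Finset.mul_sum]
      refine Finset.sum_congr rfl fun i _ => ?_
      rw [map_smul (J k), real_inner_smul_right]
      ring
    rw [Finset.sum_congr rfl fun g _ => h1 g, Finset.sum_comm, Finset.mul_sum]
    refine Finset.sum_congr rfl fun i _ => ?_
    rw [← Finset.mul_sum]
    simp only [c]
    ring
  -- the coefficients
  have hc2 : ∀ i k, ∑ j, c i k j ^ 2 ≤ ‖(b i : EE J σ τ)‖ ^ 2 := by
    intro i k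
    have hN : (0 : ℝ) < 2 ^ (k + 2) := by positivity
    have h1 := bessel (τ k) ((2 : ℝ) ^ (k + 2)) hN (hτo k)
      (fun g => inner ℝ w (J k (cd ((b i : EE J σ τ) : WW H) k g)))
    have h2 : ∀ g : GG k, (inner ℝ w (J k (cd ((b i : EE J σ τ) : WW H) k g)) : ℝ) ^ 2 ≤
        ‖(b i : EE J σ τ)‖ ^ 2 := by
      intro g
      rw [← sq_abs]
      apply pow_le_pow_left₀ (abs_nonneg _)
      refine (abs_real_inner_le_norm _ _).trans ?_
      rw [hw, one_mul]
      refine ((J k).le_opNorm _).trans ?_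
      have h3 : ‖cd ((b i : EE J σ τ) : WW H) k g‖ ≤ ‖(b i : EE J σ τ)‖ :=
        cd_le ((b i : EE J σ τ) : WW H) k g
      calc ‖J k‖ * ‖cd ((b i : EE J σ τ) : WW H) k g‖
          ≤ 1 * ‖cd ((b i : EE J σ τ) : WW H) k g‖ :=
            mul_le_mul_of_nonneg_right (hJ k) (norm_nonneg _)
        _ ≤ _ := by rw [one_mul]; exact h3
    have h4 : ∑ g : GG k, (inner ℝ w (J k (cd ((b i : EE J σ τ) : WW H) k g)) : ℝ) ^ 2 ≤
        2 ^ (k + 2) * ‖(b i : EE J σ τ)‖ ^ 2 := by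
      refine (Finset.sum_le_sum fun g _ => h2 g).trans (le_of_eq ?_)
      simp
    have h5 := h1.trans h4
    exact le_of_mul_le_mul_left h5 hN
  have hc1 : ∀ i k, ∑ j, |c i k j| ≤ Real.sqrt 2 ^ (k + 1) * ‖(b i : EE J σ τ)‖ := by
    intro i k
    have h1 := sq_sum_le_card_mul_sum_sq (s := Finset.univ) (f := fun j => |c i k j|)
    have h2 : ∑ j, |c i k j| ^ 2 ≤ ‖(b i : EE J σ τ)‖ ^ 2 := by
      simp only [sq_abs]
      exact hc2 i k
    have h3 : ((Finset.univ : Finset (Fin (2 ^ (k + 1)))).card : ℝ) = 2 ^ (k + 1) := by simp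
    rw [h3] at h1
    have h4 : (Real.sqrt 2 ^ (k + 1)) ^ 2 = 2 ^ (k + 1) := by
      rw [← pow_mul, mul_comm, pow_mul, Real.sq_sqrt (by norm_num)]
    apply le_of_sq_le_sq _ (by positivity)
    rw [mul_pow, h4]
    exact h1.trans (mul_le_mul_of_nonneg_left h2 (by positivity))
  rw [tendsto_congr hbt]
  have h0 : (0 : ℝ) = ∑ i : Fin (Module.finrank ℝ V), 0 := by simp
  rw [h0]
  refine tendsto_finsetSum _ fun i _ => ?_
  refine squeeze_zero_norm (fun k => ?_) (sqrt2_lim (‖f i‖ * ‖(b i : EE J σ τ)‖))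
  rw [Real.norm_eq_abs, abs_mul, abs_of_nonneg (by positivity : 0 ≤ ((2 : ℝ) ^ (k + 1))⁻¹)]
  have h1 : |∑ j, f i (ξ k j) * c i k j| ≤
      (‖f i‖ * (2 * (k : ℝ) + 5)) * (Real.sqrt 2 ^ (k + 1) * ‖(b i : EE J σ τ)‖) := by
    calc |∑ j, f i (ξ k j) * c i k j| ≤ ∑ j, |f i (ξ k j) * c i k j| :=
          Finset.abs_sum_le_sum_abs _ _
      _ ≤ ∑ j, (‖f i‖ * (2 * (k : ℝ) + 5)) * |c i k j| := by
          refine Finset.sum_le_sum fun j _ => ?_
          rw [abs_mul]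
          apply mul_le_mul_of_nonneg_right _ (abs_nonneg _)
          rw [← Real.norm_eq_abs]
          refine ((f i).le_opNorm _).trans ?_
          exact mul_le_mul_of_nonneg_left (hξn k j) (norm_nonneg (f i))
      _ = (‖f i‖ * (2 * (k : ℝ) + 5)) * ∑ j, |c i k j| := by rw [Finset.mul_sum]
      _ ≤ _ := mul_le_mul_of_nonneg_left (hc1 i k) (by positivity)
  have h2 : ((2 : ℝ) ^ (k + 1))⁻¹ * Real.sqrt 2 ^ (k + 1) = (Real.sqrt 2)⁻¹ ^ (k + 1) := by
    have h3 : (2 : ℝ) ^ (k + 1) = Real.sqrt 2 ^ (k + 1) * Real.sqrt 2 ^ (k + 1) := by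
      rw [← mul_pow, Real.mul_self_sqrt (by norm_num)]
    rw [h3, inv_pow]
    have h4 : Real.sqrt 2 ^ (k + 1) ≠ 0 := by positivity
    field_simp
  calc ((2 : ℝ) ^ (k + 1))⁻¹ * |∑ j, f i (ξ k j) * c i k j|
      ≤ ((2 : ℝ) ^ (k + 1))⁻¹ *
        ((‖f i‖ * (2 * (k : ℝ) + 5)) * (Real.sqrt 2 ^ (k + 1) * ‖(b i : EE J σ τ)‖)) :=
        mul_le_mul_of_nonneg_left h1 (by positivity)
    _ = ‖f i‖ * ‖(b i : EE J σ τ)‖ * (2 * (k : ℝ) + 5) *
        (((2 : ℝ) ^ (k + 1))⁻¹ * Real.sqrt 2 ^ (k + 1)) := by ring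
    _ = _ := by rw [h2]

end Pool.Agent.Helper32.BQ
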