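import Pool.Agent.Helper31.BQ.Stmts3

/-!
# Row B2: the composition with `j` is Baire-one
-/

set_option autoImplicit false

namespace Pool.Agent.Helper32.BQ

open Filter Topology Pool.Agent.Helper31.BQ

universe u

/-- norms in two quotients -/
theorem norm_mkQ_mono {Y : Type u} [NormedAddCommGroup Y] [NormedSpace ℝ Y]
    {A B : Submodule ℝ Y} (h : A ≤ B) (x : Y) : ‖B.mkQ x‖ ≤ ‖A.mkQ x‖ := by
  refine le_of_forall_pos_le_add fun ε hε => ?_
  obtain ⟨y, hy1, hy2⟩ := Submodule.Quotient.norm_mk_lt (A.mkQ x) hε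
  have h1 : y - x ∈ A := (Submodule.Quotient.eq A).1 hy1
  have h2 : B.mkQ x = B.mkQ y := ((Submodule.Quotient.eq B).2 (h h1)).symm
  rw [h2]
  exact (Submodule.Quotient.norm_mk_le B y).trans hy2.le

/-- a bounded continuous approximate section -/
theorem approx_section {Y : Type u} [NormedAddCommGroup Y] [NormedSpace ℝ Y]
    (A : Submodule ℝ Y) (hA : IsClosed (A : Set Y)) (hfd : FiniteDimensional ℝ (Y ⧸ A))
    (ε : ℝ) (hε : 0 < ε) : ∃ s : Y ⧸ A → Y, ContinuousOn s (Metric.closedBall 0 1) ∧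
      ∀ v ∈ Metric.closedBall (0 : Y ⧸ A) 1, ‖s v‖ ≤ 2 ∧ ‖A.mkQ (s v) - v‖ ≤ ε := by
  classical
  have hprop : ProperSpace (Y ⧸ A) := FiniteDimensional.proper_real (Y ⧸ A)
  obtain ⟨t, ht1, ht2, ht3⟩ := (isCompact_closedBall (0 : Y ⧸ A) 1).finite_cover_balls hε
  have hlift : ∀ c : Y ⧸ A, ∃ y : Y, A.mkQ y = c ∧ ‖y‖ < ‖c‖ + 1 := fun c =>
    Submodule.Quotient.norm_mk_lt c one_pos
  choose y hy1 hy2 using hlift
  set T : Finset (Y ⧸ A) := ht2.toFinset with hT
  have hTb : ∀ c ∈ T, ‖y c‖ ≤ 2 := by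
    intro c hc
    have h1 : c ∈ t := by simpa [hT] using hc
    have h2 := ht1 h1
    rw [mem_closedBall_zero_iff] at h2
    linarith [hy2 c]
  set w : Y ⧸ A → Y ⧸ A → ℝ := fun c v => max 0 (ε - ‖v - c‖) with hw
  have hw0 : ∀ c v, 0 ≤ w c v := fun c v => le_max_left _ _
  have hwc : ∀ c, Continuous (w c) := fun c =>
    continuous_const.max (continuous_const.sub (continuous_id.sub continuous_const).norm)
  set W : Y ⧸ A → ℝ := fun v => ∑ c ∈ T, w c v with hWdef
  have hWc : Continuous W := continuous_finsetSum _ fun c _ => hwc c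
  have hWpos : ∀ v ∈ Metric.closedBall (0 : Y ⧸ A) 1, 0 < W v := by
    intro v hv
    have h1 := ht3 hv
    simp only [Set.mem_iUnion, Metric.mem_ball, exists_prop] at h1
    obtain ⟨c, hc, hcv⟩ := h1
    have hcT : c ∈ T := by simpa [hT] using hc
    refine Finset.sum_pos' (fun c _ => hw0 c v) ⟨c, hcT, ?_⟩
    rw [dist_eq_norm] at hcv
    exact lt_max_of_lt_right (by linarith)
  refine ⟨fun v => (W v)⁻¹ • ∑ c ∈ T, w c v • y c, ?_, ?_⟩
  · refine ContinuousOn.smul ?_ ?_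
    · exact hWc.continuousOn.inv₀ fun v hv => (hWpos v hv).ne'
    · exact (continuous_finsetSum _ fun c _ => (hwc c).smul continuous_const).continuousOn
  · intro v hv
    have hW := hWpos v hv
    constructor
    · rw [norm_smul, norm_inv, Real.norm_eq_abs, abs_of_pos hW, inv_mul_le_iff₀ hW]
      calc ‖∑ c ∈ T, w c v • y c‖ ≤ ∑ c ∈ T, ‖w c v • y c‖ := norm_sum_le _ _
        _ ≤ ∑ c ∈ T, w c v * 2 := by
            refine Finset.sum_le_sum fun c hc => ?_
            rw [norm_smul, Real.norm_eq_abs, abs_of_nonneg (hw0 c v)]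
            exact mul_le_mul_of_nonneg_left (hTb c hc) (hw0 c v)
        _ = W v * 2 := by rw [← Finset.sum_mul]
    · have e1 : A.mkQ ((W v)⁻¹ • ∑ c ∈ T, w c v • y c) - v =
          (W v)⁻¹ • ∑ c ∈ T, w c v • (c - v) := by
        rw [map_smul, map_sum]
        have e2 : v = (W v)⁻¹ • ∑ c ∈ T, w c v • v := by
          rw [← Finset.sum_smul, smul_smul, inv_mul_cancel₀ hW.ne', one_smul]
        have e3 : ∑ c ∈ T, w c v • (c - v) = (∑ c ∈ T, w c v • c) - ∑ c ∈ T, w c v • v := by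
          rw [← Finset.sum_sub_distrib]
          exact Finset.sum_congr rfl fun c _ => smul_sub _ _ _
        have e4 : ∑ c ∈ T, A.mkQ (w c v • y c) = ∑ c ∈ T, w c v • c := by
          refine Finset.sum_congr rfl fun c _ => ?_
          rw [map_smul, hy1 c]
        rw [e3, smul_sub, ← e2, e4]
      rw [e1, norm_smul, norm_inv, Real.norm_eq_abs, abs_of_pos hW, inv_mul_le_iff₀ hW]
      calc ‖∑ c ∈ T, w c v • (c - v)‖ ≤ ∑ c ∈ T, ‖w c v • (c - v)‖ := norm_sum_le _ _
        _ ≤ ∑ c ∈ T, w c v * ε := by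
            refine Finset.sum_le_sum fun c hc => ?_
            rw [norm_smul, Real.norm_eq_abs, abs_of_nonneg (hw0 c v), norm_sub_rev]
            rcases le_or_gt ‖v - c‖ ε with h | h
            · exact mul_le_mul_of_nonneg_left h (hw0 c v)
            · have : w c v = 0 := max_eq_left (by linarith)
              rw [this]
              simp
        _ = W v * ε := by rw [← Finset.sum_mul]

theorem st_B2 : ST_B2.{u} := by
  intro Y E _ _ _ _ M hM j hP hJ f hf
  obtain ⟨hcl, hfd, -, -⟩ := hP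
  have hs : ∀ n : ℕ, ∃ s : Y ⧸ M n → Y, ContinuousOn s (Metric.closedBall 0 1) ∧
      ∀ v ∈ Metric.closedBall (0 : Y ⧸ M n) 1, ‖s v‖ ≤ 2 ∧
        ‖(M n).mkQ (s v) - v‖ ≤ 1 / ((n : ℝ) + 1) := fun n =>
    approx_section (M n) (hcl n) (hfd n) _ (by positivity)
  choose s hsc hsb using hs
  have hmem : ∀ (n : ℕ) (φ : XX hM), (φ : ∀ n, Y ⧸ M n) n ∈ Metric.closedBall (0 : Y ⧸ M n) 1 := by
    intro n φ
    rw [mem_closedBall_zero_iff]
    exact φ.2.1 n
  refine ⟨fun n φ => j (s n ((φ : ∀ n, Y ⧸ M n) n)), fun n => ?_, fun φ => ?_⟩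
  · refine j.continuous.comp ?_
    exact (hsc n).comp_continuous ((continuous_apply n).comp continuous_subtype_val)
      (fun φ => hmem n φ)
  · refine hJ _ 2 (f φ) (fun n => (hsb n _ (hmem n φ)).1) fun m => ?_
    rw [tendsto_iff_norm_sub_tendsto_zero]
    have h1 : Tendsto (fun n : ℕ => 1 / ((n : ℝ) + 1) +
        ‖(M n).mkQ (f φ) - (φ : ∀ n, Y ⧸ M n) n‖) atTop (𝓝 (0 + 0)) :=
      tendsto_one_div_add_atTop_nhds_zero_nat.add (hf φ)
    rw [add_zero] at h1
    refine squeeze_zero' (Eventually.of_forall fun n => norm_nonneg _) ?_ h1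
    filter_upwards [eventually_ge_atTop m] with n hn
    rw [← map_sub]
    refine (norm_mkQ_mono (hM hn) _).trans ?_
    have e : (M n).mkQ (s n ((φ : ∀ n, Y ⧸ M n) n) - f φ) =
        ((M n).mkQ (s n ((φ : ∀ n, Y ⧸ M n) n)) - (φ : ∀ n, Y ⧸ M n) n) -
          ((M n).mkQ (f φ) - (φ : ∀ n, Y ⧸ M n) n) := by
      rw [map_sub]
      abel
    rw [e]
    exact (norm_sub_le _ _).trans (add_le_add (hsb n _ (hmem n φ)).2 le_rfl)

end Pool.Agent.Helper32.BQ
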