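import Pool.Agent.Helper31.BQ.Stmts2

/-!
# Row XC: the set `XX` is compact and convex
-/

set_option autoImplicit false

namespace Pool.Agent.Helper32.BQ

open Filter Topology Pool.Agent.Helper31.BQ

universe u

theorem st_XC : ST_XC.{u} := by
  intro E _ _ M hM hP
  obtain ⟨hcl, hfd, -, -⟩ := hP
  have hcl' : ∀ n, IsClosed (M n : Set E) := hcl
  have : ∀ n, FiniteDimensional ℝ (E ⧸ M n) := hfd
  have hT : ∀ n, T2Space (E ⧸ M n) := fun n => by
    have := hcl n
    infer_instance
  have hprop : ∀ n, ProperSpace (E ⧸ M n) := fun n => by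
    have := hcl n
    exact FiniteDimensional.proper_real (E ⧸ M n)
  have hrs : ∀ n, Continuous (rs hM n) := fun n => by
    exact LinearMap.continuous_of_finiteDimensional _
  refine ⟨?_, ?_, inferInstance, inferInstance, inferInstance, inferInstance⟩
  · have h1 : IsCompact (Set.pi Set.univ fun n => Metric.closedBall (0 : E ⧸ M n) 1) :=
      isCompact_univ_pi fun n => by
        have := hprop n
        exact isCompact_closedBall _ _
    refine h1.of_isClosed_subset ?_ ?_
    · have e : XX hM = (⋂ n, {φ : ∀ n, E ⧸ M n | ‖φ n‖ ≤ 1}) ∩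
          ⋂ N, {φ : ∀ n, E ⧸ M n | ∑ n ∈ Finset.range N, ‖rs hM n (φ (n + 1)) - φ n‖ ≤ 1} := by
        ext φ
        simp [XX]
      rw [e]
      refine IsClosed.inter (isClosed_iInter fun n => ?_) (isClosed_iInter fun N => ?_)
      · exact isClosed_le (continuous_norm.comp (continuous_apply n)) continuous_const
      · refine isClosed_le (continuous_finsetSum _ fun n _ => ?_) continuous_const
        exact (((hrs n).comp (continuous_apply (n + 1))).sub (continuous_apply n)).norm
    · intro φ hφ n _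
      rw [mem_closedBall_zero_iff]
      exact hφ.1 n
  · intro φ hφ ψ hψ a b ha hb hab
    refine ⟨fun n => ?_, fun N => ?_⟩
    · have h1 := hφ.1 n
      have h2 := hψ.1 n
      calc ‖(a • φ + b • ψ) n‖ = ‖a • φ n + b • ψ n‖ := rfl
        _ ≤ ‖a • φ n‖ + ‖b • ψ n‖ := norm_add_le _ _
        _ = a * ‖φ n‖ + b * ‖ψ n‖ := by
            rw [norm_smul, norm_smul, Real.norm_eq_abs, Real.norm_eq_abs, abs_of_nonneg ha,
              abs_of_nonneg hb]
        _ ≤ a * 1 + b * 1 := add_le_add (mul_le_mul_of_nonneg_left h1 ha)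
            (mul_le_mul_of_nonneg_left h2 hb)
        _ = 1 := by rw [mul_one, mul_one, hab]
    · have h1 := hφ.2 N
      have h2 := hψ.2 N
      have h3 : ∀ n, ‖rs hM n ((a • φ + b • ψ) (n + 1)) - (a • φ + b • ψ) n‖ ≤
          a * ‖rs hM n (φ (n + 1)) - φ n‖ + b * ‖rs hM n (ψ (n + 1)) - ψ n‖ := by
        intro n
        have e : rs hM n ((a • φ + b • ψ) (n + 1)) - (a • φ + b • ψ) n =
            a • (rs hM n (φ (n + 1)) - φ n) + b • (rs hM n (ψ (n + 1)) - ψ n) := by
          have e1 : (a • φ + b • ψ) (n + 1) = a • φ (n + 1) + b • ψ (n + 1) := rfl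
          have e2 : (a • φ + b • ψ) n = a • φ n + b • ψ n := rfl
          rw [e1, e2, map_add, map_smul, map_smul, smul_sub, smul_sub]
          abel
        rw [e]
        refine (norm_add_le _ _).trans (le_of_eq ?_)
        rw [norm_smul, norm_smul, Real.norm_eq_abs, Real.norm_eq_abs, abs_of_nonneg ha,
          abs_of_nonneg hb]
      calc ∑ n ∈ Finset.range N, ‖rs hM n ((a • φ + b • ψ) (n + 1)) - (a • φ + b • ψ) n‖
          ≤ ∑ n ∈ Finset.range N, (a * ‖rs hM n (φ (n + 1)) - φ n‖ +
            b * ‖rs hM n (ψ (n + 1)) - ψ n‖) := Finset.sum_le_sum fun n _ => h3 n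
        _ = a * ∑ n ∈ Finset.range N, ‖rs hM n (φ (n + 1)) - φ n‖ +
            b * ∑ n ∈ Finset.range N, ‖rs hM n (ψ (n + 1)) - ψ n‖ := by
            rw [Finset.sum_add_distrib, ← Finset.mul_sum, ← Finset.mul_sum]
        _ ≤ a * 1 + b * 1 := add_le_add (mul_le_mul_of_nonneg_left h1 ha)
            (mul_le_mul_of_nonneg_left h2 hb)
        _ = 1 := by rw [mul_one, mul_one, hab]

end Pool.Agent.Helper32.BQ
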